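import Pool.Agent.H63.T4.Evt

/-!
# One system of hops from a family of lines, coordinates in a frame

The coordinates of the position are `∑ j, R i j * x j` with closed coefficients `R` (a function of the
letter of the line and of the point), the unit of the coordinate `i` is `2 ^ (-g i)`.
-/

set_option autoImplicit false

namespace Pool.T4E

open Finset Real
open Pool.Agent.H49.Ent Pool.Agent.H32.Dense Pool.STK Pool.KA Pool.KSAT Pool.K2S Pool.PB Pool.GEN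
open Pool.T4H (Hp)

variable {m J : ℕ} {n : ℕ}

/-- The velocities of the coordinates of the frame in the units `2 ^ (a - g i)`. -/
noncomputable def fD {F : Fam m J} (R : LnT F → Fin n → Fin m → ℝ) (a : ℕ) (g : Fin n → ℕ)
    (s : LnT F) (i : Fin n) : ℤ :=
  ⌊(2 : ℝ) ^ g i / 2 ^ a * ∑ j, R s i j * s.1.2 j⌋

/-- The positions at the beginning of the window in the units `2 ^ (-g i)`. -/
noncomputable def fP {F : Fam m J} (R : LnT F → Fin n → Fin m → ℝ) (a : ℕ) (g : Fin n → ℕ)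
    (s : LnT F) (i : Fin n) : ℝ :=
  2 ^ g i * ∑ j, R s i j * (s.1.1 j + (s.2.2 : ℝ) / 2 ^ a * s.1.2 j)

/-- The positions of the exact point in the units `2 ^ (-g i)`. -/
noncomputable def fz {F : Fam m J} (RP : PtT F → Fin n → Fin m → ℝ) (g : Fin n → ℕ) (x : PtT F)
    (i : Fin n) : ℤ :=
  ⌊(2 : ℝ) ^ g i * ∑ j, RP x i j * ((x.1 j : ℝ) / 2 ^ J)⌋

/-- The coordinates of a sample. -/
noncomputable def fx {F : Fam m J} (R : LnT F → Fin n → Fin m → ℝ) (a : ℕ) (ω : F.Ω)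
    (i : Fin n) : ℝ := ∑ j, R (slam F a ω) i j * F.x ω j

/-- The record in the frame. -/
noncomputable def fG {F : Fam m J} {κ 𝒴 : Type} (R : LnT F → Fin n → Fin m → ℝ) (a : ℕ)
    (g : Fin n → ℕ) (q : ℕ) (Kb : F.Ω → κ) (Cy : LnT F → 𝒴) (ω : F.Ω) :
    κ × (𝒴 × (ℕ × (Fin n → ℤ))) :=
  (Kb ω, (Cy (slam F a ω), (F.T ω, fun i => fD R a g (slam F a ω) i / 2 ^ q)))

/-- The upper digits of the velocities in the frame. -/
noncomputable def fN {F : Fam m J} (R : LnT F → Fin n → Fin m → ℝ) (a : ℕ) (g : Fin n → ℕ) (q : ℕ)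
    (s : LnT F) : Fin n → ℤ :=
  fun i => fD R a g s i / 2 ^ q

/-- The letter of the coarser window. -/
def up {F : Fam m J} (a a₂ : ℕ) (s : LnT F) : LnT F := (s.1, (s.2.1, s.2.2 / 2 ^ (a₂ - a)))

theorem up_slam {F : Fam m J} {a a₂ : ℕ} (h : a ≤ a₂) (h2 : a₂ ≤ J) (ω : F.Ω) :
    up a a₂ (slam F a₂ ω) = slam F a ω := by
  show ((F.u ω, F.d ω), (F.Z ω, F.T1 a₂ ω / 2 ^ (a₂ - a))) = ((F.u ω, F.d ω), (F.Z ω, F.T1 a ω))
  have h3 : F.T1 a₂ ω / 2 ^ (a₂ - a) = F.T1 a ω := by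
    unfold Fam.T1
    rw [Nat.div_div_eq_div_mul, ← pow_add]
    congr 2
    omega
  rw [h3]

section

variable {F : Fam m J} {R : LnT F → Fin n → Fin m → ℝ} {RP : PtT F → Fin n → Fin m → ℝ} {a q : ℕ}
  {g : Fin n → ℕ} {K₀ : ℕ}

theorem floor_cl (x : ℝ) : |(⌊x⌋ : ℝ) - x| ≤ 1 := by
  rw [abs_le]
  constructor
  · linarith [Int.lt_floor_add_one x]
  · linarith [Int.floor_le x]

theorem fz_near {ω : F.Ω} (hR : R (slam F a ω) = RP (ptr F J ω)) {i : Fin n} (hg : g i ≤ J)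
    (hK : ∑ j, |R (slam F a ω) i j| ≤ K₀) :
    |(fz RP g (ptr F J ω) i : ℝ) - 2 ^ g i * fx R a ω i| ≤ K₀ + 1 := by
  have h1 : |(fz RP g (ptr F J ω) i : ℝ) -
      2 ^ g i * ∑ j, RP (ptr F J ω) i j * (((ptr F J ω).1 j : ℝ) / 2 ^ J)| ≤ 1 := floor_cl _
  have h2 : |(2 : ℝ) ^ g i * ∑ j, RP (ptr F J ω) i j * (((ptr F J ω).1 j : ℝ) / 2 ^ J) -
      2 ^ g i * fx R a ω i| ≤ K₀ := by
    unfold fx
    rw [← hR, ← mul_sub, ← Finset.sum_sub_distrib, abs_mul, abs_of_pos (by positivity)]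
    have h3 : |∑ j, (R (slam F a ω) i j * (((ptr F J ω).1 j : ℝ) / 2 ^ J) -
        R (slam F a ω) i j * F.x ω j)| ≤ ∑ j, |R (slam F a ω) i j| * (1 / 2 ^ J) := by
      refine (Finset.abs_sum_le_sum_abs _ _).trans (Finset.sum_le_sum fun j _ => ?_)
      rw [← mul_sub, abs_mul]
      refine mul_le_mul_of_nonneg_left ?_ (abs_nonneg _)
      have h4 := floor_cl (2 ^ J * F.x ω j)
      have h5 : (((ptr F J ω).1 j : ℝ) / 2 ^ J) - F.x ω j =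
          ((⌊2 ^ J * F.x ω j⌋ : ℝ) - 2 ^ J * F.x ω j) / 2 ^ J := by
        show ((⌊2 ^ J * F.x ω j⌋ : ℤ) : ℝ) / 2 ^ J - F.x ω j = _
        field_simp
      rw [h5, abs_div, abs_of_pos (show (0 : ℝ) < 2 ^ J by positivity)]
      exact div_le_div_of_nonneg_right h4 (by positivity)
    rw [← Finset.sum_mul] at h3
    have h6 : (∑ j, |R (slam F a ω) i j|) * (1 / 2 ^ J) ≤ K₀ * (1 / 2 ^ J) :=
      mul_le_mul_of_nonneg_right hK (by positivity)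
    have h7 : (2 : ℝ) ^ g i ≤ 2 ^ J := pow_le_pow_right₀ (by norm_num) hg
    calc (2 : ℝ) ^ g i * _ ≤ 2 ^ J * (K₀ * (1 / 2 ^ J)) :=
          mul_le_mul h7 (h3.trans h6) (abs_nonneg _) (by positivity)
      _ = K₀ := by field_simp
  rw [abs_le] at h1 h2 ⊢
  constructor <;> linarith [h1.1, h1.2, h2.1, h2.2]

/-- The position moves with the velocity. -/
theorem fpos {ω : F.Ω} (hR : R (slam F a ω) = RP (ptr F J ω)) (ha : a ≤ J) {i : Fin n}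
    (hg : g i ≤ J) (hK : ∑ j, |R (slam F a ω) i j| ≤ K₀) :
    |(fz RP g (ptr F J ω) i : ℝ) - (fP R a g (slam F a ω) i +
      fD R a g (slam F a ω) i * ((vtf F a ω : ℝ) / 2 ^ (J - a)))| ≤ K₀ + 2 := by
  have h1 := fz_near hR hg hK
  have h2 : (2 : ℝ) ^ g i * fx R a ω i = fP R a g (slam F a ω) i +
      (2 ^ g i / 2 ^ a * ∑ j, R (slam F a ω) i j * F.d ω j) * ((vtf F a ω : ℝ) / 2 ^ (J - a)) := by
    show 2 ^ g i * (∑ j, R (slam F a ω) i j * F.x ω j) =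
      2 ^ g i * (∑ j, R (slam F a ω) i j * (F.u ω j + ((F.T1 a ω : ℕ) : ℝ) / 2 ^ a * F.d ω j)) + _
    have p1 : (0 : ℝ) < 2 ^ a := by positivity
    have e1 : ∑ j, R (slam F a ω) i j * F.x ω j =
        ∑ j, R (slam F a ω) i j * (F.u ω j + ((F.T1 a ω : ℕ) : ℝ) / 2 ^ a * F.d ω j) +
        (∑ j, R (slam F a ω) i j * F.d ω j) * ((vtf F a ω : ℝ) / 2 ^ (J - a) / 2 ^ a) := by
      rw [Finset.sum_mul, ← Finset.sum_add_distrib]
      refine Finset.sum_congr rfl fun j _ => ?_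
      unfold Fam.x
      rw [vtf_rt ha ω]
      ring
    rw [e1]
    ring
  have h3 : |(2 ^ g i / 2 ^ a * ∑ j, R (slam F a ω) i j * F.d ω j : ℝ) -
      fD R a g (slam F a ω) i| ≤ 1 := by
    rw [abs_sub_comm]
    exact floor_cl _
  have h4 : |((vtf F a ω : ℝ) / 2 ^ (J - a))| ≤ 1 := by
    have h5 : (0 : ℝ) ≤ vtf F a ω := by exact_mod_cast vtf_nonneg ω
    have h6 : (vtf F a ω : ℝ) ≤ 2 ^ (J - a) := by exact_mod_cast (vtf_lt (a := a) ω).le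
    rw [abs_of_nonneg (by positivity), div_le_one (by positivity)]
    exact h6
  have h7 : |(2 ^ g i / 2 ^ a * ∑ j, R (slam F a ω) i j * F.d ω j -
      (fD R a g (slam F a ω) i : ℝ)) * ((vtf F a ω : ℝ) / 2 ^ (J - a))| ≤ 1 := by
    rw [abs_mul]
    exact mul_le_one₀ h3 (abs_nonneg _) h4
  rw [abs_le] at h1 h7 ⊢
  rw [h2] at h1
  constructor
  · nlinarith [h1.1, h7.1]
  · nlinarith [h1.2, h7.2]

/-- **One system of hops in a frame.** `p`: any law on the samples; `Kb`, `Cy`, `Ka`: the record of the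
finer base, the side path, the record of the base `a`; `Yb`: the side information of the point. -/
theorem hp_fev {κ κ' 𝒴 υ : Type} {p : F.Ω → ℝ} (hp : IsLaw p) (ha : a ≤ J) (hg : ∀ i, g i ≤ J)
    (hq : q ≤ J - a) {K : ℕ} {e : ℝ} (he : 0 ≤ e) {Kb : F.Ω → κ'} {Cy : LnT F → 𝒴}
    {Ka : LnT F → κ} {Yb : PtT F → υ}
    -- the frame
    (hR : ∀ ω, 0 < p ω → R (slam F a ω) = RP (ptr F J ω))
    (hR₀ : ∀ ω, 0 < p ω → ∀ i, ∑ j, |R (slam F a ω) i j| ≤ K₀) (hK : K₀ + 2 ≤ K)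
    -- the record of the finer base determines the one of `a` and the positions
    (hKa : ∀ ω ω', 0 < p ω → 0 < p ω' → Kb ω = Kb ω' → F.T ω = F.T ω' →
      Cy (slam F a ω) = Cy (slam F a ω') → Ka (slam F a ω) = Ka (slam F a ω'))
    (hKz : ∀ ω ω', 0 < p ω → 0 < p ω' → Kb ω = Kb ω' → F.T ω = F.T ω' →
      Cy (slam F a ω) = Cy (slam F a ω') →
      ∀ i, |2 ^ g i * fx R a ω i - 2 ^ g i * fx R a ω' i| ≤ (K : ℝ) - 2 * K₀ - 2)
    -- the side information of the point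
    (hYb : ∀ ω ω', 0 < p ω → 0 < p ω' → vtf F a ω = vtf F a ω' →
      Cy (slam F a ω) = Cy (slam F a ω') → Ka (slam F a ω) = Ka (slam F a ω') →
      Yb (ptr F J ω) = Yb (ptr F J ω'))
    (full : ((J : ℝ) - a) * Real.log 2 - e ≤ CH p (fun ω => F.T ω % 2 ^ (J - a)) (slam F a))
    (free : CH p (fun ω => fD R a g (slam F a ω)) (fun ω => (fN R a g q (slam F a ω),
        vC Cy Ka (slam F a ω))) - e ≤
      CH p (fun ω => fD R a g (slam F a ω)) (fG R a g q Kb Cy)) :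
    Hp p (slam F a) (vt F a q) (vtf F a) (fG R a g q Kb Cy) (fD R a g) (fP R a g) (vC Cy Ka)
      (fN R a g q) (ptr F J) (fz RP g) Yb q (J - a) K e where
  law := hp
  e0 := he
  mM := hq
  tb := fun ω _ => by
    have h1 : (0 : ℤ) ≤ vt F a q ω := Int.natCast_nonneg _
    rw [abs_of_nonneg h1]
    unfold vt
    have h2 : F.T ω % 2 ^ (J - a) / 2 ^ (J - a - q) ≤ 2 ^ q := by
      refine Nat.div_le_of_le_mul ?_
      rw [← pow_add, Nat.sub_add_cancel hq]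
      exact (Nat.mod_lt _ (by positivity)).le
    exact_mod_cast h2
  tfb := fun ω _ => by
    rw [abs_of_nonneg (vtf_nonneg ω)]
    exact (vtf_lt ω).le
  tt := fun ω _ => vt_near hq ω
  pos := fun ω hω i => (fpos (hR ω hω) ha (hg i) (hR₀ ω hω i)).trans (by exact_mod_cast hK)
  GC := fun ω ω' hω hω' h => by
    obtain ⟨h1, h2⟩ := Prod.ext_iff.1 h
    obtain ⟨h3, h4⟩ := Prod.ext_iff.1 h2
    obtain ⟨h5, h6⟩ := Prod.ext_iff.1 h4
    exact ⟨Prod.ext h3 (hKa ω ω' hω hω' h1 h5 h3), h6⟩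
  Gt := fun ω ω' _ _ h => by
    have h5 : F.T ω = F.T ω' := (Prod.ext_iff.1 (Prod.ext_iff.1 (Prod.ext_iff.1 h).2).2).1
    unfold vt vtf
    rw [h5]
    exact ⟨rfl, rfl⟩
  Gz := fun ω ω' hω hω' h i => by
    obtain ⟨h1, h2⟩ := Prod.ext_iff.1 h
    obtain ⟨h3, h4⟩ := Prod.ext_iff.1 h2
    have e1 := hKz ω ω' hω hω' h1 (Prod.ext_iff.1 h4).1 h3 i
    have e2 := fz_near (hR ω hω) (hg i) (hR₀ ω hω i)
    have e3 := fz_near (hR ω' hω') (hg i) (hR₀ ω' hω' i)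
    rw [abs_le] at e1 e2 e3 ⊢
    constructor <;> linarith [e1.1, e1.2, e2.1, e2.2, e3.1, e3.2]
  GD := fun ω ω' _ _ h i => by
    have h6 := congrFun (Prod.ext_iff.1 (Prod.ext_iff.1 (Prod.ext_iff.1 h).2).2).2 i
    exact div_near h6
  Yt := fun ω ω' hω hω' h1 h2 => hYb ω ω' hω hω' h1 (Prod.ext_iff.1 h2).1 (Prod.ext_iff.1 h2).2
  full := by
    have e1 : CH p (vtf F a) (slam F a) = CH p (fun ω => F.T ω % 2 ^ (J - a)) (slam F a) := by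
      refine CH_congr hp.nonneg ?_ ?_ (fun _ _ _ _ h => h) (fun _ _ _ _ h => h)
      · intro ω ω' _ _ h
        have h1 : vtf F a ω = vtf F a ω' := (Prod.ext_iff.1 h).1
        unfold vtf at h1
        exact Int.ofNat_inj.1 h1
      · intro ω ω' _ _ h
        have h1 : F.T ω % 2 ^ (J - a) = F.T ω' % 2 ^ (J - a) := (Prod.ext_iff.1 h).1
        show vtf F a ω = vtf F a ω'
        unfold vtf
        rw [h1]
    rw [e1, Nat.cast_sub ha]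
    exact full
  free := free

end

section two

variable {F : Fam m J} {R : LnT F → Fin n → Fin m → ℝ} {a q a₂ q₂ rr : ℕ} {g g₂ : Fin n → ℕ}

/-- The velocities in coarser units. -/
theorem fD_fD (haa : a ≤ a₂) (ha₂ : a₂ ≤ J) {i : Fin n} (hr : a₂ + g i = rr + (a + g₂ i))
    (ω : F.Ω) : fD (fun s => R (up a a₂ s)) a₂ g₂ (slam F a₂ ω) i =
      fD R a g (slam F a ω) i / 2 ^ rr := by
  show ⌊(2 : ℝ) ^ g₂ i / 2 ^ a₂ * ∑ j, R (up a a₂ (slam F a₂ ω)) i j * F.d ω j⌋ =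
    ⌊(2 : ℝ) ^ g i / 2 ^ a * ∑ j, R (slam F a ω) i j * F.d ω j⌋ / _
  rw [up_slam haa ha₂]
  obtain ⟨v, hv⟩ : ∃ v, v = ∑ j, R (slam F a ω) i j * F.d ω j := ⟨_, rfl⟩
  rw [← hv]
  have h1 : (2 : ℝ) ^ g₂ i / 2 ^ a₂ * v = (2 : ℝ) ^ g i / 2 ^ a * v / ((2 ^ rr : ℕ) : ℝ) := by
    have h2 : (2 : ℝ) ^ a₂ * 2 ^ g i = 2 ^ rr * (2 ^ a * 2 ^ g₂ i) := by
      rw [← pow_add, ← pow_add, ← pow_add, hr]
    push_cast
    rw [div_mul_eq_mul_div, div_mul_eq_mul_div, div_div, div_eq_div_iff (by positivity)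
      (by positivity)]
    have e1 : (2 : ℝ) ^ g i * v * 2 ^ a₂ = 2 ^ a₂ * 2 ^ g i * v := by ring
    rw [e1, h2]
    ring
  rw [h1, Int.floor_div_natCast]
  push_cast
  rfl

/-- The field `DD`. -/
theorem dd_fev (haa : a ≤ a₂) (ha₂ : a₂ ≤ J) (hr : ∀ i, a₂ + g i = rr + (a + g₂ i)) {K : ℕ}
    (hK : 1 ≤ K) (ω : F.Ω) (i : Fin n) :
    |(fD (fun s => R (up a a₂ s)) a₂ g₂ (slam F a₂ ω) i : ℝ) -
      fD R a g (slam F a ω) i / 2 ^ rr| ≤ K := by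
  rw [fD_fD haa ha₂ (hr i)]
  obtain ⟨x, hx⟩ : ∃ x : ℤ, x = fD R a g (slam F a ω) i := ⟨_, rfl⟩
  rw [← hx]
  have p1 : (0 : ℤ) < 2 ^ rr := by positivity
  have h1 := Int.emod_add_mul_ediv x (2 ^ rr)
  have h3 := Int.emod_nonneg x p1.ne'
  have h5 := Int.emod_lt_of_pos x p1
  have h6 : (x : ℝ) = ((x % 2 ^ rr : ℤ) : ℝ) + 2 ^ rr * ((x / 2 ^ rr : ℤ) : ℝ) := by
    exact_mod_cast h1.symm
  have h7 : (0 : ℝ) ≤ ((x % 2 ^ rr : ℤ) : ℝ) := by exact_mod_cast h3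
  have h8 : ((x % 2 ^ rr : ℤ) : ℝ) ≤ 2 ^ rr := by exact_mod_cast h5.le
  have p2 : (0 : ℝ) < 2 ^ rr := by positivity
  have h9 : ((x / 2 ^ rr : ℤ) : ℝ) - (x : ℝ) / 2 ^ rr = -(((x % 2 ^ rr : ℤ) : ℝ) / 2 ^ rr) := by
    have e1 : (x : ℝ) / 2 ^ rr = ((x % 2 ^ rr : ℤ) : ℝ) / 2 ^ rr + ((x / 2 ^ rr : ℤ) : ℝ) := by
      rw [div_add' _ _ _ p2.ne', div_left_inj' p2.ne']
      linarith
    rw [e1]
    ring
  rw [h9, abs_neg, abs_of_nonneg (by positivity)]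
  refine ((div_le_one p2).2 h8).trans ?_
  exact_mod_cast hK

/-- The field `GG`. -/
theorem gg_fev {κ κ₂ 𝒴 𝒴₂ : Type} {p : F.Ω → ℝ} {Kb : F.Ω → κ} {Kb₂ : F.Ω → κ₂} {Cy : LnT F → 𝒴}
    {Cy₂ : LnT F → 𝒴₂} (haa : a ≤ a₂) (ha₂ : a₂ ≤ J) (hr : ∀ i, a₂ + g i = rr + (a + g₂ i))
    (hq : rr + q₂ ≤ q)
    (hKb : ∀ ω ω', 0 < p ω → 0 < p ω' → Kb₂ ω = Kb₂ ω' → F.T ω = F.T ω' →
      Cy₂ (slam F a₂ ω) = Cy₂ (slam F a₂ ω') → Kb ω = Kb ω' ∧ Cy (slam F a ω) = Cy (slam F a ω')) :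
    ∀ ω ω', 0 < p ω → 0 < p ω' →
      fG (fun s => R (up a a₂ s)) a₂ g₂ q₂ Kb₂ Cy₂ ω = fG (fun s => R (up a a₂ s)) a₂ g₂ q₂ Kb₂ Cy₂ ω' →
      fG R a g q Kb Cy ω = fG R a g q Kb Cy ω' := by
  intro ω ω' hω hω' h
  obtain ⟨h1, h2⟩ := Prod.ext_iff.1 h
  obtain ⟨h3, h4⟩ := Prod.ext_iff.1 h2
  obtain ⟨h5, h6⟩ := Prod.ext_iff.1 h4
  obtain ⟨k1, k2⟩ := hKb ω ω' hω hω' h1 h5 h3
  refine Prod.ext k1 (Prod.ext k2 (Prod.ext h5 (funext fun i => ?_)))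
  have h7 : fD (fun s => R (up a a₂ s)) a₂ g₂ (slam F a₂ ω) i / 2 ^ q₂ =
    fD (fun s => R (up a a₂ s)) a₂ g₂ (slam F a₂ ω') i / 2 ^ q₂ := congrFun h6 i
  rw [fD_fD haa ha₂ (hr i), fD_fD haa ha₂ (hr i)] at h7
  show fD R a g (slam F a ω) i / 2 ^ q = fD R a g (slam F a ω') i / 2 ^ q
  have e1 : (2 : ℤ) ^ q = 2 ^ rr * 2 ^ q₂ * 2 ^ (q - (rr + q₂)) := by
    rw [← pow_add, ← pow_add]
    congr 1
    omega
  rw [Int.ediv_ediv_of_nonneg (by positivity), Int.ediv_ediv_of_nonneg (by positivity)] at h7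
  have e2 : ∀ x : ℤ, x / 2 ^ q = x / (2 ^ rr * 2 ^ q₂) / 2 ^ (q - (rr + q₂)) := fun x => by
    rw [e1, Int.ediv_ediv_of_nonneg (by positivity)]
  rw [e2, e2, h7]

end two

end Pool.T4E
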