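import Pool.Agent.H97.T4.S
import Pool.Agent.H97.T4E.Fev

/-!
# The hypotheses of the tie with three coordinates from a family of lines, coordinates in a frame

`t4ok_fr`: two systems over one law, with the windows `a`, `a₂` and the units `2 ^ (-g i)`,
`2 ^ (-g₂ i)` of the coordinates `∑ j, R i j * x j` of the position; one frame `R` (closed at `a`) for
both systems.
-/

set_option autoImplicit false

namespace Pool.T4E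

open Finset Real
open Pool.Agent.H49.Ent Pool.Agent.H32.Dense Pool.STK Pool.KA Pool.KSAT Pool.K2S Pool.PB Pool.GEN
open Pool.T4H
open Pool.K2S (Pe)
open Pool.PR46 (P1)

variable {m J : ℕ}

/-- **The hypotheses of the tie** for a family of lines, coordinates in the frame `R`. `Kb`, `Cy`,
`Ka`: the record of the finer base, the side path, the record of the base `a` of the first system;
`Kb₂`, `Cy₂`, `Ka₂`: of the second one. -/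
theorem t4ok_fr {F : Fam m J} {p : F.Ω → ℝ} (hp : IsLaw p)
    {R : LnT F → Fin 3 → Fin m → ℝ} {RP : PtT F → Fin 3 → Fin m → ℝ}
    {κ κ' κ₂ κ₂' 𝒴 𝒴₂ υ υ₂ : Type} {Kb : F.Ω → κ'} {Cy : LnT F → 𝒴} {Ka : LnT F → κ}
    {Yb : PtT F → υ} {Kb₂ : F.Ω → κ₂'} {Cy₂ : LnT F → 𝒴₂} {Ka₂ : LnT F → κ₂} {Yb₂ : PtT F → υ₂}
    {JJ : LnT F → Fin 3 → Fin 2 → ℝ} {cc : F.Ω → ℝ} {h η δ ϖ : ℝ} {u K K₀ a a₂ rr : ℕ}
    {g g₂ : Fin 3 → ℕ} {A : ℕ → ℕ}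
    -- the numbers
    (haa : a ≤ a₂) (ha₂ : a₂ ≤ J) (hg : ∀ i, g i ≤ J) (hg₂ : ∀ i, g₂ i ≤ J)
    (hq : A 0 * u ≤ J - a) (hq₂ : A 5 * u ≤ J - a₂) (hK : K₀ + 2 ≤ K) (hη : 0 ≤ η)
    (hr : ∀ i, a₂ + g i = rr + (a + g₂ i)) (hm₁ : rr + A 5 * u ≤ A 0 * u)
    (hm₂ : A 0 * u ≤ rr + A 5 * u + A 6 * u)
    -- the frame
    (hR : ∀ ω, 0 < p ω → R (slam F a ω) = RP (ptr F J ω))
    (hR₀ : ∀ ω, 0 < p ω → ∀ i, ∑ j, |R (slam F a ω) i j| ≤ K₀)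
    -- the records
    (hKa : ∀ ω ω', 0 < p ω → 0 < p ω' → Kb ω = Kb ω' → F.T ω = F.T ω' →
      Cy (slam F a ω) = Cy (slam F a ω') → Ka (slam F a ω) = Ka (slam F a ω'))
    (hKz : ∀ ω ω', 0 < p ω → 0 < p ω' → Kb ω = Kb ω' → F.T ω = F.T ω' →
      Cy (slam F a ω) = Cy (slam F a ω') →
      ∀ i, |2 ^ g i * fx R a ω i - 2 ^ g i * fx R a ω' i| ≤ (K : ℝ) - 2 * K₀ - 2)
    (hYb : ∀ ω ω', 0 < p ω → 0 < p ω' → vtf F a ω = vtf F a ω' →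
      Cy (slam F a ω) = Cy (slam F a ω') → Ka (slam F a ω) = Ka (slam F a ω') →
      Yb (ptr F J ω) = Yb (ptr F J ω'))
    (hKa₂ : ∀ ω ω', 0 < p ω → 0 < p ω' → Kb₂ ω = Kb₂ ω' → F.T ω = F.T ω' →
      Cy₂ (slam F a₂ ω) = Cy₂ (slam F a₂ ω') → Ka₂ (slam F a₂ ω) = Ka₂ (slam F a₂ ω'))
    (hKz₂ : ∀ ω ω', 0 < p ω → 0 < p ω' → Kb₂ ω = Kb₂ ω' → F.T ω = F.T ω' →
      Cy₂ (slam F a₂ ω) = Cy₂ (slam F a₂ ω') →
      ∀ i, |2 ^ g₂ i * fx R a ω i - 2 ^ g₂ i * fx R a ω' i| ≤ (K : ℝ) - 2 * K₀ - 2)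
    (hYb₂ : ∀ ω ω', 0 < p ω → 0 < p ω' → vtf F a₂ ω = vtf F a₂ ω' →
      Cy₂ (slam F a₂ ω) = Cy₂ (slam F a₂ ω') → Ka₂ (slam F a₂ ω) = Ka₂ (slam F a₂ ω') →
      Yb₂ (ptr F J ω) = Yb₂ (ptr F J ω'))
    (hKb : ∀ ω ω', 0 < p ω → 0 < p ω' → Kb₂ ω = Kb₂ ω' → F.T ω = F.T ω' →
      Cy₂ (slam F a₂ ω) = Cy₂ (slam F a₂ ω') → Kb ω = Kb ω' ∧ Cy (slam F a ω) = Cy (slam F a ω'))
    -- the time
    (full : J * Real.log 2 - η * u ≤ CH p F.T (fun ω => (F.l ω, F.Z ω)))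
    -- the velocities
    (free : CH p (fun ω => fD R a g (slam F a ω)) (fun ω => (fN R a g (A 0 * u) (slam F a ω),
        vC Cy Ka (slam F a ω))) - η * u ≤
      CH p (fun ω => fD R a g (slam F a ω)) (fG R a g (A 0 * u) Kb Cy))
    (free₂ : CH p (fun ω => fD (fun s => R (up a a₂ s)) a₂ g₂ (slam F a₂ ω))
        (fun ω => (fN (fun s => R (up a a₂ s)) a₂ g₂ (A 5 * u) (slam F a₂ ω),
          vC Cy₂ Ka₂ (slam F a₂ ω))) - η * u ≤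
      CH p (fun ω => fD (fun s => R (up a a₂ s)) a₂ g₂ (slam F a₂ ω))
        (fG (fun s => R (up a a₂ s)) a₂ g₂ (A 5 * u) Kb₂ Cy₂))
    (alv1 : Pe (P1 p (fG R a g (A 0 * u) Kb Cy))
      (fun b => ¬ Big (fD R a g) (slam F a) (A 0 * u) u b) ≤ δ)
    (alv2 : Pe (P1 p (fG (fun s => R (up a a₂ s)) a₂ g₂ (A 5 * u) Kb₂ Cy₂))
      (fun b => ¬ Big (fD (fun s => R (up a a₂ s)) a₂ g₂) (slam F a₂) (A 5 * u) u b) ≤ δ)
    (row1 : RowT p (fun ω => fz RP g (ptr F J ω)) (fun ω => Yb (ptr F J ω)) (A 0 * u)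
      ((3 - h) * (A 0 * u) * Real.log 2 + η * u) ϖ)
    (row2 : RowT p (fun ω => fz RP g₂ (ptr F J ω)) (fun ω => Yb₂ (ptr F J ω)) (A 5 * u)
      ((3 - h) * (A 5 * u) * Real.log 2 + η * u) ϖ)
    (im1 : FI1A p (slam F a) (ptr F J) (fun ω => fz RP g (ptr F J ω)) (fun ω => Yb (ptr F J ω))
      (A 2 * u) (A 0 / A 2) (A 3 * u) (((A 2 : ℝ) - A 3) * u * Real.log 2 - η * u) ϖ)
    (im2 : FI2A p (slam F a) (ptr F J) (fun ω => fz RP g (ptr F J ω)) (fun ω => Yb (ptr F J ω)) u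
      (A 0) 0 (2 * u * Real.log 2 - η * u) ϖ)
    (im3 : FI1A p (slam F a₂) (ptr F J) (fun ω => fz RP g₂ (ptr F J ω))
      (fun ω => Yb₂ (ptr F J ω)) (A 7 * u) (A 5 / A 7) (A 8 * u)
      (((A 7 : ℝ) - A 8) * u * Real.log 2 - η * u) ϖ)
    -- the label at the exact point
    (cG : ∀ ω ω', 0 < p ω → 0 < p ω' →
      fG R a g (A 0 * u) Kb Cy ω = fG R a g (A 0 * u) Kb Cy ω' → cc ω = cc ω')
    (c1 : ∀ ω, 0 < p ω → |cc ω| ≤ 1)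
    (J1 : Pe (Tau p (ptr F J)) (fun v => ∃ i, (2 : ℝ) ^ (A 0 * u) < 2 ^ (A 4 * u) *
      |(fD R a g (slam F a v.1) i : ℝ) -
        (JJ (slam F a₂ v.1) i 0 + cc v.1 * JJ (slam F a₂ v.1) i 1)|) ≤ δ)
    (J2 : Pe (Tau p (ptr F J)) (fun v => ∃ i, (2 : ℝ) ^ (A 0 * u) < 2 ^ (A 4 * u) *
      |(fD R a g (slam F a v.2) i : ℝ) -
        (JJ (slam F a₂ v.1) i 0 + cc v.2 * JJ (slam F a₂ v.1) i 1)|) ≤ δ)
    (sep : Pe (Tau p (ptr F J)) (fun v => 2 ^ u * |cc v.1 - cc v.2| < 1) ≤ δ)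
    (alvR : ∀ s : Fin 4, Pe (P1 (Rws p (ptr F J) (slam F a₂)) (RG (fG R a g (A 0 * u) Kb Cy)))
      (fun w => ¬ Big (fD R a g) (slam F a) (A 0 * u) u (![(w.1.1.1, w.2.1.1),
        (w.1.1.2, w.2.1.2), (w.1.2.1, w.2.2.1), (w.1.2.2, w.2.2.2)] s)) ≤ δ) :
    T4Ok p (slam F a) (vt F a (A 0 * u)) (vtf F a) (fG R a g (A 0 * u) Kb Cy) (fD R a g)
      (fP R a g) (vC Cy Ka) (fN R a g (A 0 * u)) (ptr F J) (fz RP g) Yb (J - a)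
      (slam F a₂) (vt F a₂ (A 5 * u)) (vtf F a₂) (fG (fun s => R (up a a₂ s)) a₂ g₂ (A 5 * u) Kb₂ Cy₂)
      (fD (fun s => R (up a a₂ s)) a₂ g₂) (fP (fun s => R (up a a₂ s)) a₂ g₂) (vC Cy₂ Ka₂)
      (fN (fun s => R (up a a₂ s)) a₂ g₂ (A 5 * u)) (fz RP g₂) Yb₂ (J - a₂) JJ cc h η δ ϖ u A K
    where
  s1 := hp_fev hp (haa.trans ha₂) hg hq (by positivity) hR hR₀ hK hKa hKz hYb
    (full_evt hp (haa.trans ha₂) full) free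
  s2 := by
    refine hp_fev hp ha₂ hg₂ hq₂ (by positivity) (fun ω hω => ?_) (fun ω hω i => ?_) hK hKa₂
      (fun ω ω' h1 h2 h3 h4 h5 i => ?_) hYb₂ (full_evt hp ha₂ full) free₂
    · rw [up_slam haa ha₂]
      exact hR ω hω
    · rw [up_slam haa ha₂]
      exact hR₀ ω hω i
    · have e : ∀ ω, fx (fun s => R (up a a₂ s)) a₂ ω i = fx R a ω i := fun ω => by
        unfold fx
        simp only [up_slam haa ha₂]
      rw [e, e]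
      exact hKz₂ ω ω' h1 h2 h3 h4 h5 i
  LL := ll_evt haa ha₂
  GG := gg_fev haa ha₂ hr hm₁ hKb
  DD := ⟨rr, hm₂, fun ω _ i => dd_fev haa ha₂ hr (by omega) ω i⟩
  alv1 := alv1
  alv2 := alv2
  row1 := row1
  row2 := row2
  im1 := im1
  im2 := im2
  im3 := im3
  cG := cG
  c1 := c1
  J1 := J1
  J2 := J2
  sep := sep
  alvR := alvR

end Pool.T4E
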