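import Pool.Agent.H97.T4E.Fev

/-!
# One system of hops from a family of lines, coordinates affine along the line

`X`: the coordinates of the sample, affine along its line: `Xs` is the value at the beginning of the
window `a`, `Vs` the velocity (functions of the letter of the line). `z`: the positions of the exact
point in the units `2 ^ (-g i)`, up to two units.
-/

set_option autoImplicit false

namespace Pool.T4E

open Finset Real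
open Pool.Agent.H49.Ent Pool.Agent.H32.Dense Pool.STK Pool.KA Pool.KSAT Pool.K2S Pool.PB Pool.GEN
open Pool.T4H (Hp)

variable {m J : ℕ} {n : ℕ}

/-- The velocities of the coordinates in the units `2 ^ (a - g i)`. -/
noncomputable def gD {F : Fam m J} (Vs : LnT F → Fin n → ℝ) (a : ℕ) (g : Fin n → ℕ)
    (s : LnT F) (i : Fin n) : ℤ :=
  ⌊(2 : ℝ) ^ g i / 2 ^ a * Vs s i⌋

/-- The positions at the beginning of the window in the units `2 ^ (-g i)`. -/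
noncomputable def gP {F : Fam m J} (Xs : LnT F → Fin n → ℝ) (g : Fin n → ℕ)
    (s : LnT F) (i : Fin n) : ℝ := 2 ^ g i * Xs s i

/-- The record. -/
noncomputable def gG {F : Fam m J} {κ 𝒴 : Type} (Vs : LnT F → Fin n → ℝ) (a : ℕ)
    (g : Fin n → ℕ) (q : ℕ) (Kb : F.Ω → κ) (Cy : LnT F → 𝒴) (ω : F.Ω) :
    κ × (𝒴 × (ℕ × (Fin n → ℤ))) :=
  (Kb ω, (Cy (slam F a ω), (F.T ω, fun i => gD Vs a g (slam F a ω) i / 2 ^ q)))

/-- The upper digits of the velocities. -/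
noncomputable def gN {F : Fam m J} (Vs : LnT F → Fin n → ℝ) (a : ℕ) (g : Fin n → ℕ) (q : ℕ)
    (s : LnT F) : Fin n → ℤ :=
  fun i => gD Vs a g s i / 2 ^ q

/-- The coordinates are affine along the line. -/
def AffX {F : Fam m J} (p : F.Ω → ℝ) (X : F.Ω → Fin n → ℝ) (Xs Vs : LnT F → Fin n → ℝ) (a : ℕ) :
    Prop :=
  ∀ ω, 0 < p ω → ∀ i, X ω i = Xs (slam F a ω) i +
    Vs (slam F a ω) i * (F.t ω - (F.T1 a ω : ℝ) / 2 ^ a)

/-- The integer code of the point. -/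
def CodX {F : Fam m J} (p : F.Ω → ℝ) (X : F.Ω → Fin n → ℝ) (z : PtT F → Fin n → ℤ)
    (g : Fin n → ℕ) : Prop :=
  ∀ ω, 0 < p ω → ∀ i, |(z (ptr F J ω) i : ℝ) - 2 ^ g i * X ω i| ≤ 2

section

variable {F : Fam m J} {X : F.Ω → Fin n → ℝ} {Xs Vs : LnT F → Fin n → ℝ} {z : PtT F → Fin n → ℤ}
  {a q : ℕ} {g : Fin n → ℕ} {p : F.Ω → ℝ}

/-- The position moves with the velocity. -/
theorem gpos (hX : AffX p X Xs Vs a) (hz : CodX p X z g) (ha : a ≤ J) {ω : F.Ω} (hω : 0 < p ω)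
    (i : Fin n) :
    |(z (ptr F J ω) i : ℝ) - (gP Xs g (slam F a ω) i +
      gD Vs a g (slam F a ω) i * ((vtf F a ω : ℝ) / 2 ^ (J - a)))| ≤ 3 := by
  have h1 := hz ω hω i
  have h2 : (2 : ℝ) ^ g i * X ω i = gP Xs g (slam F a ω) i +
      (2 ^ g i / 2 ^ a * Vs (slam F a ω) i) * ((vtf F a ω : ℝ) / 2 ^ (J - a)) := by
    rw [hX ω hω i, vtf_rt ha ω]
    unfold gP
    have p1 : (0 : ℝ) < 2 ^ a := by positivity
    field_simp
    ring
  have h3 : |(2 ^ g i / 2 ^ a * Vs (slam F a ω) i : ℝ) - gD Vs a g (slam F a ω) i| ≤ 1 := by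
    rw [abs_sub_comm]
    exact floor_cl _
  have h4 : |((vtf F a ω : ℝ) / 2 ^ (J - a))| ≤ 1 := by
    have h5 : (0 : ℝ) ≤ vtf F a ω := by exact_mod_cast vtf_nonneg ω
    have h6 : (vtf F a ω : ℝ) ≤ 2 ^ (J - a) := by exact_mod_cast (vtf_lt (a := a) ω).le
    rw [abs_of_nonneg (by positivity), div_le_one (by positivity)]
    exact h6
  have h7 : |(2 ^ g i / 2 ^ a * Vs (slam F a ω) i - (gD Vs a g (slam F a ω) i : ℝ)) *
      ((vtf F a ω : ℝ) / 2 ^ (J - a))| ≤ 1 := by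
    rw [abs_mul]
    exact mul_le_one₀ h3 (abs_nonneg _) h4
  rw [abs_le] at h1 h7 ⊢
  rw [h2] at h1
  constructor
  · nlinarith [h1.1, h7.1]
  · nlinarith [h1.2, h7.2]

/-- **One system of hops, coordinates affine along the line.** `p`: any law on the samples; `Kb`,
`Cy`, `Ka`: the record of the finer base, the side path, the record of the base `a`; `Yb`: the side
information of the point. -/
theorem hp_gev {κ κ' 𝒴 υ : Type} (hp : IsLaw p) (ha : a ≤ J)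
    (hq : q ≤ J - a) {K : ℕ} (hK : 3 ≤ K) {e : ℝ} (he : 0 ≤ e) {Kb : F.Ω → κ'} {Cy : LnT F → 𝒴}
    {Ka : LnT F → κ} {Yb : PtT F → υ} (hX : AffX p X Xs Vs a) (hz : CodX p X z g)
    -- the record of the finer base determines the one of `a` and the positions
    (hKa : ∀ ω ω', 0 < p ω → 0 < p ω' → Kb ω = Kb ω' → F.T ω = F.T ω' →
      Cy (slam F a ω) = Cy (slam F a ω') → Ka (slam F a ω) = Ka (slam F a ω'))
    (hKz : ∀ ω ω', 0 < p ω → 0 < p ω' → Kb ω = Kb ω' → F.T ω = F.T ω' →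
      Cy (slam F a ω) = Cy (slam F a ω') →
      ∀ i, |2 ^ g i * X ω i - 2 ^ g i * X ω' i| ≤ (K : ℝ) - 4)
    -- the side information of the point
    (hYb : ∀ ω ω', 0 < p ω → 0 < p ω' → vtf F a ω = vtf F a ω' →
      Cy (slam F a ω) = Cy (slam F a ω') → Ka (slam F a ω) = Ka (slam F a ω') →
      Yb (ptr F J ω) = Yb (ptr F J ω'))
    (full : ((J : ℝ) - a) * Real.log 2 - e ≤ CH p (fun ω => F.T ω % 2 ^ (J - a)) (slam F a))
    (free : CH p (fun ω => gD Vs a g (slam F a ω)) (fun ω => (gN Vs a g q (slam F a ω),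
        vC Cy Ka (slam F a ω))) - e ≤
      CH p (fun ω => gD Vs a g (slam F a ω)) (gG Vs a g q Kb Cy)) :
    Hp p (slam F a) (vt F a q) (vtf F a) (gG Vs a g q Kb Cy) (gD Vs a g) (gP Xs g) (vC Cy Ka)
      (gN Vs a g q) (ptr F J) z Yb q (J - a) K e where
  law := hp
  e0 := he
  mM := hq
  tb := fun ω _ => by
    have h1 : (0 : ℤ) ≤ vt F a q ω := Int.natCast_nonneg _
    rw [abs_of_nonneg h1]
    unfold vt
    have h2 : F.T ω % 2 ^ (J - a) / 2 ^ (J - a - q) ≤ 2 ^ q := by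
      refine Nat.div_le_of_le_mul ?_
      rw [← pow_add, Nat.sub_add_cancel hq]
      exact (Nat.mod_lt _ (by positivity)).le
    exact_mod_cast h2
  tfb := fun ω _ => by
    rw [abs_of_nonneg (vtf_nonneg ω)]
    exact (vtf_lt ω).le
  tt := fun ω _ => vt_near hq ω
  pos := fun ω hω i => (gpos hX hz ha hω i).trans (by exact_mod_cast hK)
  GC := fun ω ω' hω hω' h => by
    obtain ⟨h1, h2⟩ := Prod.ext_iff.1 h
    obtain ⟨h3, h4⟩ := Prod.ext_iff.1 h2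
    obtain ⟨h5, h6⟩ := Prod.ext_iff.1 h4
    exact ⟨Prod.ext h3 (hKa ω ω' hω hω' h1 h5 h3), h6⟩
  Gt := fun ω ω' _ _ h => by
    have h5 : F.T ω = F.T ω' := (Prod.ext_iff.1 (Prod.ext_iff.1 (Prod.ext_iff.1 h).2).2).1
    unfold vt vtf
    rw [h5]
    exact ⟨rfl, rfl⟩
  Gz := fun ω ω' hω hω' h i => by
    obtain ⟨h1, h2⟩ := Prod.ext_iff.1 h
    obtain ⟨h3, h4⟩ := Prod.ext_iff.1 h2
    have e1 := hKz ω ω' hω hω' h1 (Prod.ext_iff.1 h4).1 h3 i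
    have e2 := hz ω hω i
    have e3 := hz ω' hω' i
    rw [abs_le] at e1 e2 e3 ⊢
    constructor <;> linarith [e1.1, e1.2, e2.1, e2.2, e3.1, e3.2]
  GD := fun ω ω' _ _ h i => by
    have h6 := congrFun (Prod.ext_iff.1 (Prod.ext_iff.1 (Prod.ext_iff.1 h).2).2).2 i
    exact div_near h6
  Yt := fun ω ω' hω hω' h1 h2 => hYb ω ω' hω hω' h1 (Prod.ext_iff.1 h2).1 (Prod.ext_iff.1 h2).2
  full := by
    have e1 : CH p (vtf F a) (slam F a) = CH p (fun ω => F.T ω % 2 ^ (J - a)) (slam F a) := by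
      refine CH_congr hp.nonneg ?_ ?_ (fun _ _ _ _ h => h) (fun _ _ _ _ h => h)
      · intro ω ω' _ _ h
        have h1 : vtf F a ω = vtf F a ω' := (Prod.ext_iff.1 h).1
        unfold vtf at h1
        exact Int.ofNat_inj.1 h1
      · intro ω ω' _ _ h
        have h1 : F.T ω % 2 ^ (J - a) = F.T ω' % 2 ^ (J - a) := (Prod.ext_iff.1 h).1
        show vtf F a ω = vtf F a ω'
        unfold vtf
        rw [h1]
    rw [e1, Nat.cast_sub ha]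
    exact full
  free := free

end

section two

variable {F : Fam m J} {Vs Vs₂ : LnT F → Fin n → ℝ} {a q a₂ q₂ rr : ℕ} {g g₂ : Fin n → ℕ}
  {p : F.Ω → ℝ}

/-- The velocities in coarser units. -/
theorem gD_gD {i : Fin n} (hr : a₂ + g i = rr + (a + g₂ i)) {ω : F.Ω}
    (hV : Vs₂ (slam F a₂ ω) i = Vs (slam F a ω) i) :
    gD Vs₂ a₂ g₂ (slam F a₂ ω) i = gD Vs a g (slam F a ω) i / 2 ^ rr := by
  unfold gD
  rw [hV]
  obtain ⟨v, hv⟩ : ∃ v, v = Vs (slam F a ω) i := ⟨_, rfl⟩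
  rw [← hv]
  have h1 : (2 : ℝ) ^ g₂ i / 2 ^ a₂ * v = (2 : ℝ) ^ g i / 2 ^ a * v / ((2 ^ rr : ℕ) : ℝ) := by
    have h2 : (2 : ℝ) ^ a₂ * 2 ^ g i = 2 ^ rr * (2 ^ a * 2 ^ g₂ i) := by
      rw [← pow_add, ← pow_add, ← pow_add, hr]
    push_cast
    rw [div_mul_eq_mul_div, div_mul_eq_mul_div, div_div, div_eq_div_iff (by positivity)
      (by positivity)]
    have e1 : (2 : ℝ) ^ g i * v * 2 ^ a₂ = 2 ^ a₂ * 2 ^ g i * v := by ring
    rw [e1, h2]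
    ring
  rw [h1, Int.floor_div_natCast]
  push_cast
  rfl

/-- The field `DD`. -/
theorem dd_gev (hr : ∀ i, a₂ + g i = rr + (a + g₂ i)) {K : ℕ}
    (hK : 1 ≤ K) {ω : F.Ω} {i : Fin n} (hV : Vs₂ (slam F a₂ ω) i = Vs (slam F a ω) i) :
    |(gD Vs₂ a₂ g₂ (slam F a₂ ω) i : ℝ) - gD Vs a g (slam F a ω) i / 2 ^ rr| ≤ K := by
  rw [gD_gD (hr i) hV]
  obtain ⟨x, hx⟩ : ∃ x : ℤ, x = gD Vs a g (slam F a ω) i := ⟨_, rfl⟩
  rw [← hx]
  have p1 : (0 : ℤ) < 2 ^ rr := by positivity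
  have h1 := Int.emod_add_mul_ediv x (2 ^ rr)
  have h3 := Int.emod_nonneg x p1.ne'
  have h5 := Int.emod_lt_of_pos x p1
  have h6 : (x : ℝ) = ((x % 2 ^ rr : ℤ) : ℝ) + 2 ^ rr * ((x / 2 ^ rr : ℤ) : ℝ) := by
    exact_mod_cast h1.symm
  have h7 : (0 : ℝ) ≤ ((x % 2 ^ rr : ℤ) : ℝ) := by exact_mod_cast h3
  have h8 : ((x % 2 ^ rr : ℤ) : ℝ) ≤ 2 ^ rr := by exact_mod_cast h5.le
  have p2 : (0 : ℝ) < 2 ^ rr := by positivity
  have h9 : ((x / 2 ^ rr : ℤ) : ℝ) - (x : ℝ) / 2 ^ rr = -(((x % 2 ^ rr : ℤ) : ℝ) / 2 ^ rr) := by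
    have e1 : (x : ℝ) / 2 ^ rr = ((x % 2 ^ rr : ℤ) : ℝ) / 2 ^ rr + ((x / 2 ^ rr : ℤ) : ℝ) := by
      rw [div_add' _ _ _ p2.ne', div_left_inj' p2.ne']
      linarith
    rw [e1]
    ring
  rw [h9, abs_neg, abs_of_nonneg (by positivity)]
  refine ((div_le_one p2).2 h8).trans ?_
  exact_mod_cast hK

/-- The field `GG`. -/
theorem gg_gev {κ κ₂ 𝒴 𝒴₂ : Type} {Kb : F.Ω → κ} {Kb₂ : F.Ω → κ₂} {Cy : LnT F → 𝒴}
    {Cy₂ : LnT F → 𝒴₂} (hr : ∀ i, a₂ + g i = rr + (a + g₂ i)) (hq : rr + q₂ ≤ q)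
    (hV : ∀ ω, 0 < p ω → ∀ i, Vs₂ (slam F a₂ ω) i = Vs (slam F a ω) i)
    (hKb : ∀ ω ω', 0 < p ω → 0 < p ω' → Kb₂ ω = Kb₂ ω' → F.T ω = F.T ω' →
      Cy₂ (slam F a₂ ω) = Cy₂ (slam F a₂ ω') → Kb ω = Kb ω' ∧ Cy (slam F a ω) = Cy (slam F a ω')) :
    ∀ ω ω', 0 < p ω → 0 < p ω' → gG Vs₂ a₂ g₂ q₂ Kb₂ Cy₂ ω = gG Vs₂ a₂ g₂ q₂ Kb₂ Cy₂ ω' →
      gG Vs a g q Kb Cy ω = gG Vs a g q Kb Cy ω' := by
  intro ω ω' hω hω' h
  obtain ⟨h1, h2⟩ := Prod.ext_iff.1 h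
  obtain ⟨h3, h4⟩ := Prod.ext_iff.1 h2
  obtain ⟨h5, h6⟩ := Prod.ext_iff.1 h4
  obtain ⟨k1, k2⟩ := hKb ω ω' hω hω' h1 h5 h3
  refine Prod.ext k1 (Prod.ext k2 (Prod.ext h5 (funext fun i => ?_)))
  have h7 : gD Vs₂ a₂ g₂ (slam F a₂ ω) i / 2 ^ q₂ =
    gD Vs₂ a₂ g₂ (slam F a₂ ω') i / 2 ^ q₂ := congrFun h6 i
  rw [gD_gD (hr i) (hV ω hω i), gD_gD (hr i) (hV ω' hω' i)] at h7
  show gD Vs a g (slam F a ω) i / 2 ^ q = gD Vs a g (slam F a ω') i / 2 ^ q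
  have e1 : (2 : ℤ) ^ q = 2 ^ rr * 2 ^ q₂ * 2 ^ (q - (rr + q₂)) := by
    rw [← pow_add, ← pow_add]
    congr 1
    omega
  rw [Int.ediv_ediv_of_nonneg (by positivity), Int.ediv_ediv_of_nonneg (by positivity)] at h7
  have e2 : ∀ x : ℤ, x / 2 ^ q = x / (2 ^ rr * 2 ^ q₂) / 2 ^ (q - (rr + q₂)) := fun x => by
    rw [e1, Int.ediv_ediv_of_nonneg (by positivity)]
  rw [e2, e2, h7]

end two

end Pool.T4E
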