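import Pool.Agent.H97.T4.S
import Pool.Agent.H97.T4E.Gev

/-!
# The hypotheses of the tie with three coordinates from a family of lines, affine coordinates

`t4ok_gv`: two systems over one law, with the windows `a`, `a₂` and the units `2 ^ (-g i)`,
`2 ^ (-g₂ i)` of the coordinates; the coordinates `X` are affine along the line, the same for both
systems.
-/

set_option autoImplicit false

namespace Pool.T4E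

open Finset Real
open Pool.Agent.H49.Ent Pool.Agent.H32.Dense Pool.STK Pool.KA Pool.KSAT Pool.K2S Pool.PB Pool.GEN
open Pool.T4H
open Pool.K2S (Pe)
open Pool.PR46 (P1)

variable {m J : ℕ}

/-- **The hypotheses of the tie** for a family of lines, coordinates affine along the line. `Kb`, `Cy`,
`Ka`: the record of the finer base, the side path, the record of the base `a` of the first system;
`Kb₂`, `Cy₂`, `Ka₂`: of the second one. -/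
theorem t4ok_gv {F : Fam m J} {p : F.Ω → ℝ} (hp : IsLaw p)
    {X : F.Ω → Fin 3 → ℝ} {Xs Vs Xs₂ Vs₂ : LnT F → Fin 3 → ℝ} {z z₂ : PtT F → Fin 3 → ℤ}
    {κ κ' κ₂ κ₂' 𝒴 𝒴₂ υ υ₂ : Type} {Kb : F.Ω → κ'} {Cy : LnT F → 𝒴} {Ka : LnT F → κ}
    {Yb : PtT F → υ} {Kb₂ : F.Ω → κ₂'} {Cy₂ : LnT F → 𝒴₂} {Ka₂ : LnT F → κ₂} {Yb₂ : PtT F → υ₂}
    {JJ : LnT F → Fin 3 → Fin 2 → ℝ} {cc : F.Ω → ℝ} {h η δ ϖ : ℝ} {u K a a₂ rr : ℕ}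
    {g g₂ : Fin 3 → ℕ} {A : ℕ → ℕ}
    -- the numbers
    (haa : a ≤ a₂) (ha₂ : a₂ ≤ J) (hq : A 0 * u ≤ J - a) (hq₂ : A 5 * u ≤ J - a₂) (hK : 3 ≤ K)
    (hη : 0 ≤ η) (hr : ∀ i, a₂ + g i = rr + (a + g₂ i)) (hm₁ : rr + A 5 * u ≤ A 0 * u)
    (hm₂ : A 0 * u ≤ rr + A 5 * u + A 6 * u)
    -- the coordinates
    (hX : AffX p X Xs Vs a) (hX₂ : AffX p X Xs₂ Vs₂ a₂)
    (hV : ∀ ω, 0 < p ω → ∀ i, Vs₂ (slam F a₂ ω) i = Vs (slam F a ω) i)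
    (hz : CodX p X z g) (hz₂ : CodX p X z₂ g₂)
    -- the records
    (hKa : ∀ ω ω', 0 < p ω → 0 < p ω' → Kb ω = Kb ω' → F.T ω = F.T ω' →
      Cy (slam F a ω) = Cy (slam F a ω') → Ka (slam F a ω) = Ka (slam F a ω'))
    (hKz : ∀ ω ω', 0 < p ω → 0 < p ω' → Kb ω = Kb ω' → F.T ω = F.T ω' →
      Cy (slam F a ω) = Cy (slam F a ω') →
      ∀ i, |2 ^ g i * X ω i - 2 ^ g i * X ω' i| ≤ (K : ℝ) - 4)
    (hYb : ∀ ω ω', 0 < p ω → 0 < p ω' → vtf F a ω = vtf F a ω' →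
      Cy (slam F a ω) = Cy (slam F a ω') → Ka (slam F a ω) = Ka (slam F a ω') →
      Yb (ptr F J ω) = Yb (ptr F J ω'))
    (hKa₂ : ∀ ω ω', 0 < p ω → 0 < p ω' → Kb₂ ω = Kb₂ ω' → F.T ω = F.T ω' →
      Cy₂ (slam F a₂ ω) = Cy₂ (slam F a₂ ω') → Ka₂ (slam F a₂ ω) = Ka₂ (slam F a₂ ω'))
    (hKz₂ : ∀ ω ω', 0 < p ω → 0 < p ω' → Kb₂ ω = Kb₂ ω' → F.T ω = F.T ω' →
      Cy₂ (slam F a₂ ω) = Cy₂ (slam F a₂ ω') →
      ∀ i, |2 ^ g₂ i * X ω i - 2 ^ g₂ i * X ω' i| ≤ (K : ℝ) - 4)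
    (hYb₂ : ∀ ω ω', 0 < p ω → 0 < p ω' → vtf F a₂ ω = vtf F a₂ ω' →
      Cy₂ (slam F a₂ ω) = Cy₂ (slam F a₂ ω') → Ka₂ (slam F a₂ ω) = Ka₂ (slam F a₂ ω') →
      Yb₂ (ptr F J ω) = Yb₂ (ptr F J ω'))
    (hKb : ∀ ω ω', 0 < p ω → 0 < p ω' → Kb₂ ω = Kb₂ ω' → F.T ω = F.T ω' →
      Cy₂ (slam F a₂ ω) = Cy₂ (slam F a₂ ω') → Kb ω = Kb ω' ∧ Cy (slam F a ω) = Cy (slam F a ω'))
    -- the time
    (full : J * Real.log 2 - η * u ≤ CH p F.T (fun ω => (F.l ω, F.Z ω)))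
    -- the velocities
    (free : CH p (fun ω => gD Vs a g (slam F a ω)) (fun ω => (gN Vs a g (A 0 * u) (slam F a ω),
        vC Cy Ka (slam F a ω))) - η * u ≤
      CH p (fun ω => gD Vs a g (slam F a ω)) (gG Vs a g (A 0 * u) Kb Cy))
    (free₂ : CH p (fun ω => gD Vs₂ a₂ g₂ (slam F a₂ ω))
        (fun ω => (gN Vs₂ a₂ g₂ (A 5 * u) (slam F a₂ ω), vC Cy₂ Ka₂ (slam F a₂ ω))) - η * u ≤
      CH p (fun ω => gD Vs₂ a₂ g₂ (slam F a₂ ω)) (gG Vs₂ a₂ g₂ (A 5 * u) Kb₂ Cy₂))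
    (alv1 : Pe (P1 p (gG Vs a g (A 0 * u) Kb Cy))
      (fun b => ¬ Big (gD Vs a g) (slam F a) (A 0 * u) u b) ≤ δ)
    (alv2 : Pe (P1 p (gG Vs₂ a₂ g₂ (A 5 * u) Kb₂ Cy₂))
      (fun b => ¬ Big (gD Vs₂ a₂ g₂) (slam F a₂) (A 5 * u) u b) ≤ δ)
    (row1 : RowT p (fun ω => z (ptr F J ω)) (fun ω => Yb (ptr F J ω)) (A 0 * u)
      ((3 - h) * (A 0 * u) * Real.log 2 + η * u) ϖ)
    (row2 : RowT p (fun ω => z₂ (ptr F J ω)) (fun ω => Yb₂ (ptr F J ω)) (A 5 * u)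
      ((3 - h) * (A 5 * u) * Real.log 2 + η * u) ϖ)
    (im1 : FI1A p (slam F a) (ptr F J) (fun ω => z (ptr F J ω)) (fun ω => Yb (ptr F J ω))
      (A 2 * u) (A 0 / A 2) (A 3 * u) (((A 2 : ℝ) - A 3) * u * Real.log 2 - η * u) ϖ)
    (im2 : FI2A p (slam F a) (ptr F J) (fun ω => z (ptr F J ω)) (fun ω => Yb (ptr F J ω)) u
      (A 0) 0 (2 * u * Real.log 2 - η * u) ϖ)
    (im3 : FI1A p (slam F a₂) (ptr F J) (fun ω => z₂ (ptr F J ω))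
      (fun ω => Yb₂ (ptr F J ω)) (A 7 * u) (A 5 / A 7) (A 8 * u)
      (((A 7 : ℝ) - A 8) * u * Real.log 2 - η * u) ϖ)
    -- the label at the exact point
    (cG : ∀ ω ω', 0 < p ω → 0 < p ω' →
      gG Vs a g (A 0 * u) Kb Cy ω = gG Vs a g (A 0 * u) Kb Cy ω' → cc ω = cc ω')
    (c1 : ∀ ω, 0 < p ω → |cc ω| ≤ 1)
    (J1 : Pe (Tau p (ptr F J)) (fun v => ∃ i, (2 : ℝ) ^ (A 0 * u) < 2 ^ (A 4 * u) *
      |(gD Vs a g (slam F a v.1) i : ℝ) -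
        (JJ (slam F a₂ v.1) i 0 + cc v.1 * JJ (slam F a₂ v.1) i 1)|) ≤ δ)
    (J2 : Pe (Tau p (ptr F J)) (fun v => ∃ i, (2 : ℝ) ^ (A 0 * u) < 2 ^ (A 4 * u) *
      |(gD Vs a g (slam F a v.2) i : ℝ) -
        (JJ (slam F a₂ v.1) i 0 + cc v.2 * JJ (slam F a₂ v.1) i 1)|) ≤ δ)
    (sep : Pe (Tau p (ptr F J)) (fun v => 2 ^ u * |cc v.1 - cc v.2| < 1) ≤ δ)
    (alvR : ∀ s : Fin 4, Pe (P1 (Rws p (ptr F J) (slam F a₂)) (RG (gG Vs a g (A 0 * u) Kb Cy)))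
      (fun w => ¬ Big (gD Vs a g) (slam F a) (A 0 * u) u (![(w.1.1.1, w.2.1.1),
        (w.1.1.2, w.2.1.2), (w.1.2.1, w.2.2.1), (w.1.2.2, w.2.2.2)] s)) ≤ δ) :
    T4Ok p (slam F a) (vt F a (A 0 * u)) (vtf F a) (gG Vs a g (A 0 * u) Kb Cy) (gD Vs a g)
      (gP Xs g) (vC Cy Ka) (gN Vs a g (A 0 * u)) (ptr F J) z Yb (J - a)
      (slam F a₂) (vt F a₂ (A 5 * u)) (vtf F a₂) (gG Vs₂ a₂ g₂ (A 5 * u) Kb₂ Cy₂)
      (gD Vs₂ a₂ g₂) (gP Xs₂ g₂) (vC Cy₂ Ka₂)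
      (gN Vs₂ a₂ g₂ (A 5 * u)) z₂ Yb₂ (J - a₂) JJ cc h η δ ϖ u A K
    where
  s1 := hp_gev hp (haa.trans ha₂) hq hK (by positivity) hX hz hKa hKz hYb
    (full_evt hp (haa.trans ha₂) full) free
  s2 := hp_gev hp ha₂ hq₂ hK (by positivity) hX₂ hz₂ hKa₂ hKz₂ hYb₂ (full_evt hp ha₂ full) free₂
  LL := ll_evt haa ha₂
  GG := gg_gev hr hm₁ hV hKb
  DD := ⟨rr, hm₂, fun ω hω i => dd_gev hr (by omega) (hV ω hω i)⟩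
  alv1 := alv1
  alv2 := alv2
  row1 := row1
  row2 := row2
  im1 := im1
  im2 := im2
  im3 := im3
  cG := cG
  c1 := c1
  J1 := J1
  J2 := J2
  sep := sep
  alvR := alvR

/-- The coordinates at the beginning of a finer window. -/
noncomputable def Xs2 {F : Fam m J} {n : ℕ} (Xs Vs : LnT F → Fin n → ℝ) (a a₂ : ℕ) (s : LnT F)
    (i : Fin n) : ℝ :=
  Xs (up a a₂ s) i + Vs (up a a₂ s) i * ((s.2.2 : ℝ) / 2 ^ a₂ - ((up a a₂ s).2.2 : ℝ) / 2 ^ a)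

/-- The coordinates are affine for the finer window. -/
theorem AffX.up {F : Fam m J} {n : ℕ} {p : F.Ω → ℝ} {X : F.Ω → Fin n → ℝ}
    {Xs Vs : LnT F → Fin n → ℝ} {a a₂ : ℕ} (h : a ≤ a₂) (h2 : a₂ ≤ J) (H : AffX p X Xs Vs a) :
    AffX p X (Xs2 Xs Vs a a₂) (fun s => Vs (up a a₂ s)) a₂ := by
  intro ω hω i
  have e1 : Xs2 Xs Vs a a₂ (slam F a₂ ω) i = Xs (slam F a ω) i +
      Vs (slam F a ω) i * ((F.T1 a₂ ω : ℝ) / 2 ^ a₂ - (F.T1 a ω : ℝ) / 2 ^ a) := by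
    unfold Xs2
    rw [up_slam h h2]
    rfl
  have e2 : (fun s => Vs (T4E.up a a₂ s)) (slam F a₂ ω) i = Vs (slam F a ω) i := by
    show Vs (T4E.up a a₂ (slam F a₂ ω)) i = _
    rw [up_slam h h2]
  rw [H ω hω i, e1, e2]
  ring

end Pool.T4E
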